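import Pool.Agent.Lib.MP_ba0fa5_ag.AA.IfaceA

/-!
MP_ba0fa5_ag, Theorem A, module BADJ: rough numbers with a prime factor `1 mod 2^(J+1)`.
-/

set_option autoImplicit false

namespace Pool.Agent.Lib.MP_ba0fa5_ag.H79

open scoped Classical
open Finset
open Pool.Agent.Lib.MP_ba0fa5_ag.AA

theorem VV_nn' (W z : ℕ) : 0 ≤ VV W z := by
  unfold VV
  refine prod_nonneg fun l hl => ?_
  have h1 : l.Prime := (mem_filter.1 hl).2
  have h2 : (1 : ℝ) ≤ l := by exact_mod_cast h1.one_lt.le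
  rw [sub_nonneg, div_le_one (by positivity)]
  exact h2

/-- `primorial W = 2 * odd` -/
theorem primorial_two {W : ℕ} (hW : 3 ≤ W) : ∃ Q₁ : ℕ, primorial W = 2 * Q₁ ∧ Q₁.Coprime 2 := by
  refine ⟨∏ p ∈ ((range (W + 1)).filter Nat.Prime).erase 2, p, ?_, ?_⟩
  · unfold primorial
    rw [mul_prod_erase _ (fun p => p) (mem_filter.2 ⟨mem_range.2 (by omega), Nat.prime_two⟩)]
  · refine Nat.Coprime.prod_left fun p hp => ?_
    rw [mem_erase, mem_filter] at hp
    exact (Nat.coprime_primes hp.2.2 Nat.prime_two).2 hp.1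

theorem coprime_primorial {W n : ℕ} (h : ∀ l : ℕ, l.Prime → l ∣ n → W < l) :
    n.Coprime (primorial W) := by
  rw [Nat.coprime_iff_gcd_eq_one]
  by_contra hcon
  obtain ⟨l, hl, hd⟩ := Nat.exists_prime_and_dvd hcon
  have h1 := h l hl (hd.trans (Nat.gcd_dvd_left _ _))
  have h2 := (hl.dvd_primorial_iff).1 (hd.trans (Nat.gcd_dvd_right _ _))
  omega

/-- APU for the numbers `w` with `m w = c mod Q` -/
theorem apu_mul {B W z q Y : ℕ} (hW : 3 ≤ W) (hz : 2 ≤ z) (hq : 1 ≤ q) (hY : q * z ^ B ≤ Y)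
    (hl : ∀ l ∈ primesIn W z, ¬ l ∣ q)
    (hB : ∀ W z q Y c : ℕ, 3 ≤ W → 2 ≤ z → 1 ≤ q → q * z ^ B ≤ Y →
      (∀ l ∈ primesIn W z, ¬ l ∣ q) →
      (((Icc 1 Y).filter (fun n => n ≡ c [MOD q] ∧ Rgh z n)).card : ℝ) ≤
        2 * ((Y : ℝ) / q) * VV W z) (s : Finset ℕ)
    (hs : ∀ w ∈ s, w ∈ Icc 1 Y ∧ Rgh z w) (hs2 : ∀ w ∈ s, ∀ w' ∈ s, w ≡ w' [MOD q]) :
    (s.card : ℝ) ≤ 2 * ((Y : ℝ) / q) * VV W z := by
  by_cases hne : s.Nonempty
  · obtain ⟨w0, hw0⟩ := hne
    refine le_trans ?_ (hB W z q Y w0 hW hz hq hY hl)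
    rw [Nat.cast_le]
    refine card_le_card fun w hw => ?_
    rw [mem_filter]
    exact ⟨(hs w hw).1, hs2 w hw w0 hw0, (hs w hw).2⟩
  · rw [not_nonempty_iff_eq_empty.1 hne, card_empty, Nat.cast_zero]
    have := VV_nn' W z
    positivity

theorem badj (hA : ApuStmt) (hR : RoughsumStmt) (hM : MertapStmt) (hG : RecgStmt) : BadjStmt := by
  obtain ⟨B₀, hB⟩ := hA
  obtain ⟨CR, hCR, hR⟩ := hR
  refine ⟨2 * (B₀ + 1), fun A => ?_⟩
  refine ⟨2 * (Real.log A + 1) + 2 * (CR * A) , ?_, fun J W hW => ?_⟩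
  · have h1 : 0 ≤ Real.log A := Real.log_natCast_nonneg A
    have h2 : (0 : ℝ) ≤ A := Nat.cast_nonneg A
    positivity
  set α : ℕ → ℝ := fun l => if l ≡ 1 [MOD 2 ^ (J + 1)] then 1 else 0 with hα
  obtain ⟨C₁, hC₁⟩ := hM (2 ^ (J + 1)) (Nat.one_le_two_pow)
  have hC₁0 : 0 ≤ C₁ := (abs_nonneg _).trans (hC₁ 1 1 (Nat.coprime_one_left _) le_rfl)
  have hphi : ((2 ^ (J + 1) : ℕ).totient : ℝ) = 2 ^ J := by
    rw [Nat.totient_prime_pow Nat.prime_two (Nat.succ_pos J)]
    simp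
  have hrec := hG α (1 / 2 ^ J) C₁ (fun l => by
      simp only [hα]
      split_ifs <;> norm_num) (by positivity) hC₁0 (fun y hy => by
    have h1 := hC₁ 1 y (Nat.coprime_one_left _) hy
    have h2 : ∑ l ∈ primesIn 0 y, α l * Real.log l / l =
        ∑ l ∈ (Icc 1 y).filter (fun l => l.Prime ∧ l ≡ 1 [MOD 2 ^ (J + 1)]), Real.log l / l := by
      have e : primesIn 0 y = (Icc 1 y).filter Nat.Prime := by
        unfold primesIn
        congr 1
      rw [e, ← filter_filter, sum_filter (fun l => l ≡ 1 [MOD 2 ^ (J + 1)])]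
      refine sum_congr rfl fun l _ => ?_
      simp only [hα]
      split_ifs <;> simp
    rw [h2]
    rw [hphi] at h1
    have h3 : 1 / 2 ^ J * Real.log y = Real.log y / 2 ^ J := by ring
    rw [h3]
    exact h1)
  -- choice of `z₀`
  have hlim : Filter.Tendsto (fun z : ℕ => (4 * C₁ + 4 * (1 / 2 ^ J)) / Real.log z) Filter.atTop
      (nhds 0) :=
    Filter.Tendsto.const_div_atTop (Real.tendsto_log_atTop.comp tendsto_natCast_atTop_atTop) _
  have hev := hlim.eventually (gt_mem_nhds (show (0 : ℝ) < 1 / 2 ^ J by positivity))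
  obtain ⟨z₁, hz₁⟩ := Filter.eventually_atTop.1 hev
  refine ⟨max (max z₁ 3) (max W (primorial W * 2 ^ J)), fun z Y c hz hBY hYA hc => ?_⟩
  have hz1 : z₁ ≤ z := (le_max_left _ _).trans ((le_max_left _ _).trans hz)
  have hz3 : 3 ≤ z := (le_max_right _ _).trans ((le_max_left _ _).trans hz)
  have hzW : W ≤ z := (le_max_left _ _).trans ((le_max_right _ _).trans hz)
  have hzQ : primorial W * 2 ^ J ≤ z := (le_max_right _ _).trans ((le_max_right _ _).trans hz)
  have hQ0 : 0 < primorial W := primorial_pos W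
  have hA1 : 1 ≤ A := by
    by_contra hcon
    have hA0 : A = 0 := by omega
    subst hA0
    have h1 : z ^ (2 * (B₀ + 1)) ≤ 1 := by simpa using hBY.trans hYA
    have h2 : 3 ^ 1 ≤ z ^ (2 * (B₀ + 1)) :=
      (Nat.pow_le_pow_left hz3 1).trans (Nat.pow_le_pow_right (by omega) (by omega))
    omega
  have hVV := VV_nn' W z
  set s := Nat.sqrt Y with hs
  have hs1 : z ^ (B₀ + 1) ≤ s := by
    rw [hs, Nat.le_sqrt, ← pow_add]
    have e : B₀ + 1 + (B₀ + 1) = 2 * (B₀ + 1) := by ring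
    rw [e]
    exact hBY
  have hss : s * s ≤ Y := Nat.sqrt_le Y
  have hss' : Y < (s + 1) * (s + 1) := Nat.lt_succ_sqrt Y
  have hs0 : 0 < s := lt_of_lt_of_le (by positivity) hs1
  -- the two index sets
  set L := (primesIn z s).filter (fun l => 2 ^ (J + 1) ∣ l - 1) with hL
  set N₁ := (Icc 1 s).filter (fun n => Rgh z n) with hN₁
  set F : ℕ → Finset ℕ := fun l => (Icc 1 (Y / l)).filter
    (fun n => l * n ≡ c [MOD primorial W] ∧ Rgh z n) with hF
  set G : ℕ → Finset ℕ := fun n => (Icc 1 (Y / n)).filter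
    (fun l => l * n ≡ c [MOD primorial W] ∧ 2 ^ (J + 1) ∣ l - 1 ∧ Rgh z l) with hGd
  have hsub : (Icc 1 Y).filter (fun n => n ≡ c [MOD primorial W] ∧ Rgh z n ∧
      ∃ l : ℕ, l.Prime ∧ l ∣ n ∧ 2 ^ (J + 1) ∣ l - 1) ⊆
      (L.biUnion fun l => (F l).image fun n => l * n) ∪
      (N₁.biUnion fun n => (G n).image fun l => l * n) := by
    intro n hn
    rw [mem_filter, mem_Icc] at hn
    obtain ⟨⟨h1, h2⟩, h3, h4, l, hl, ⟨m, rfl⟩, h5⟩ := hn
    have hzl : z < l := h4 l hl (dvd_mul_right _ _)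
    have hl0 : 0 < l := hl.pos
    have hm0 : 0 < m := by
      rcases Nat.eq_zero_or_pos m with h | h
      · subst h
        omega
      · exact h
    have hmr : Rgh z m := fun r hr hd => h4 r hr (hd.trans (dvd_mul_left _ _))
    rw [mem_union, mem_biUnion, mem_biUnion]
    by_cases hls : l ≤ s
    · left
      refine ⟨l, ?_, ?_⟩
      · simp only [hL, primesIn, mem_filter, mem_Ioc]
        exact ⟨⟨⟨hzl, hls⟩, hl⟩, h5⟩
      · rw [mem_image]
        refine ⟨m, ?_, rfl⟩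
        simp only [hF, mem_filter, mem_Icc]
        refine ⟨⟨hm0, ?_⟩, h3, hmr⟩
        rw [Nat.le_div_iff_mul_le hl0, mul_comm]
        exact h2
    · right
      refine ⟨m, ?_, ?_⟩
      · simp only [hN₁, mem_filter, mem_Icc]
        refine ⟨⟨hm0, ?_⟩, hmr⟩
        by_contra hcon
        have e1 : s + 1 ≤ l := by omega
        have e2 : s + 1 ≤ m := by omega
        have e3 := Nat.mul_le_mul e1 e2
        omega
      · rw [mem_image]
        refine ⟨l, ?_, rfl⟩
        simp only [hGd, mem_filter, mem_Icc]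
        refine ⟨⟨hl0, ?_⟩, h3, h5, ?_⟩
        · rw [Nat.le_div_iff_mul_le hm0]
          exact h2
        · intro r hr hd
          rw [(Nat.prime_dvd_prime_iff_eq hr hl).1 hd]
          exact hzl
  have hprim : ∀ l ∈ primesIn W z, ¬ l ∣ primorial W * 2 ^ J := by
    intro l hl hd
    have h2 := mem_filter.1 hl
    have h4 := (mem_Ioc.1 h2.1).1
    rcases (h2.2.dvd_mul).1 hd with h | h
    · have h3 := (h2.2.dvd_primorial_iff).1 h
      omega
    · have h3 := (Nat.prime_dvd_prime_iff_eq h2.2 Nat.prime_two).1 (h2.2.dvd_of_dvd_pow h)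
      omega
  have hbig : primorial W * 2 ^ J * z ^ B₀ ≤ s := by
    refine le_trans (Nat.mul_le_mul hzQ le_rfl) ?_
    rw [← pow_succ']
    exact hs1
  -- bound for the first part
  have hFc : ∀ l ∈ L, ((F l).card : ℝ) ≤ 2 * ((Y : ℝ) / (primorial W : ℝ)) * VV W z * (1 / l) := by
    intro l hl
    simp only [hL, primesIn, mem_filter, mem_Ioc] at hl
    obtain ⟨⟨⟨hzl, hls⟩, hlp⟩, -⟩ := hl
    have hl0 : 0 < l := hlp.pos
    have hlc : l.Coprime (primorial W) := coprime_primorial fun r hr hd => by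
      rw [(Nat.prime_dvd_prime_iff_eq hr hlp).1 hd]
      omega
    have h1 := apu_mul (B := B₀) (W := W) (z := z) (q := primorial W) (Y := Y / l) hW
      (by omega) hQ0 (by
        have e1 : s ≤ Y / l := by
          rw [Nat.le_div_iff_mul_le hl0]
          exact (Nat.mul_le_mul le_rfl hls).trans hss
        refine le_trans ?_ e1
        refine le_trans (Nat.mul_le_mul ?_ le_rfl) hbig
        exact Nat.le_mul_of_pos_right _ (by positivity))
      (fun r hr hd => hprim r hr (hd.trans (dvd_mul_right _ _))) hB (F l)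
      (fun w hw => by
        simp only [hF, mem_filter] at hw
        exact ⟨hw.1, hw.2.2⟩)
      (fun w hw w' hw' => by
        simp only [hF, mem_filter] at hw hw'
        exact Nat.ModEq.cancel_left_of_coprime hlc.symm (hw.2.1.trans hw'.2.1.symm))
    refine h1.trans ?_
    have e2 : ((Y / l : ℕ) : ℝ) ≤ (Y : ℝ) / l := Nat.cast_div_le
    have hQr : (0 : ℝ) < (primorial W : ℝ) := by exact_mod_cast hQ0
    calc 2 * (((Y / l : ℕ) : ℝ) / (primorial W : ℝ)) * VV W z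
        ≤ 2 * (((Y : ℝ) / l) / (primorial W : ℝ)) * VV W z := by gcongr
      _ = 2 * ((Y : ℝ) / (primorial W : ℝ)) * VV W z * (1 / l) := by ring
  -- bound for the second part
  have hGc : ∀ n ∈ N₁, ((G n).card : ℝ) ≤
      2 * ((Y : ℝ) / (primorial W : ℝ)) * VV W z * (1 / 2 ^ J) * (1 / n) := by
    intro n hn
    simp only [hN₁, mem_filter, mem_Icc] at hn
    obtain ⟨⟨hn0, hns⟩, hnr⟩ := hn
    have hnc : n.Coprime (primorial W) := coprime_primorial fun r hr hd => by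
      have := hnr r hr hd
      omega
    obtain ⟨Q₁, hQ₁, hQ₁c⟩ := primorial_two hW
    have h1 := apu_mul (B := B₀) (W := W) (z := z) (q := primorial W * 2 ^ J) (Y := Y / n)
      hW (by omega) (Nat.mul_pos hQ0 (by positivity)) (by
        have e1 : s ≤ Y / n := by
          rw [Nat.le_div_iff_mul_le hn0]
          exact (Nat.mul_le_mul le_rfl hns).trans hss
        exact hbig.trans e1)
      hprim hB (G n)
      (fun w hw => by
        simp only [hGd, mem_filter] at hw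
        exact ⟨hw.1, hw.2.2.2⟩)
      (fun w hw w' hw' => by
        simp only [hGd, mem_filter, mem_Icc] at hw hw'
        have a1 : w ≡ w' [MOD primorial W] :=
          Nat.ModEq.cancel_right_of_coprime hnc.symm (hw.2.1.trans hw'.2.1.symm)
        have a2 : w ≡ w' [MOD 2 ^ (J + 1)] := by
          have b1 : w ≡ 1 [MOD 2 ^ (J + 1)] := ((Nat.modEq_iff_dvd' hw.1.1).2 hw.2.2.1).symm
          have b2 : w' ≡ 1 [MOD 2 ^ (J + 1)] := ((Nat.modEq_iff_dvd' hw'.1.1).2 hw'.2.2.1).symm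
          exact b1.trans b2.symm
        have a3 : w ≡ w' [MOD Q₁] := Nat.ModEq.of_dvd ⟨2, by rw [hQ₁, mul_comm]⟩ a1
        have hcop : Q₁.Coprime (2 ^ (J + 1)) := Nat.Coprime.pow_right _ hQ₁c
        have a4 := (Nat.modEq_and_modEq_iff_modEq_mul hcop).1 ⟨a3, a2⟩
        have e : primorial W * 2 ^ J = Q₁ * 2 ^ (J + 1) := by rw [hQ₁, pow_succ]; ring
        rw [e]
        exact a4)
    refine h1.trans ?_
    have e2 : ((Y / n : ℕ) : ℝ) ≤ (Y : ℝ) / n := Nat.cast_div_le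
    have hQr : (0 : ℝ) < (primorial W : ℝ) := by exact_mod_cast hQ0
    push_cast
    calc 2 * (((Y / n : ℕ) : ℝ) / ((primorial W : ℝ) * 2 ^ J)) * VV W z
        ≤ 2 * (((Y : ℝ) / n) / ((primorial W : ℝ) * 2 ^ J)) * VV W z := by gcongr
      _ = 2 * ((Y : ℝ) / (primorial W : ℝ)) * VV W z * (1 / 2 ^ J) * (1 / n) := by
          field_simp
  -- the sum over the primes
  have hsum1 : ∑ l ∈ L, 1 / (l : ℝ) ≤ 1 / 2 ^ J * (Real.log A + 1) := by
    have hzA : z ≤ z ^ A := by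
      calc z = z ^ 1 := (pow_one z).symm
        _ ≤ z ^ A := Nat.pow_le_pow_right (by omega) hA1
    have h1 := hrec z (z ^ A) (by omega) hzA
    have hlz : 0 < Real.log z := Real.log_pos (by exact_mod_cast (by omega : 1 < z))
    have h2 : Real.log ((z ^ A : ℕ) : ℝ) / Real.log z = A := by
      push_cast
      rw [Real.log_pow]
      field_simp
    rw [h2] at h1
    have h3 := (abs_le.1 h1).2
    have h4 := hz₁ z hz1
    have h5 : ∑ l ∈ L, 1 / (l : ℝ) ≤ ∑ l ∈ primesIn z (z ^ A), α l / l := by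
      have e : ∑ l ∈ primesIn z (z ^ A), α l / l =
          ∑ l ∈ (primesIn z (z ^ A)).filter (fun l => l ≡ 1 [MOD 2 ^ (J + 1)]), 1 / (l : ℝ) := by
        rw [sum_filter]
        refine sum_congr rfl fun l _ => ?_
        simp only [hα]
        split_ifs <;> simp
      rw [e]
      refine sum_le_sum_of_subset_of_nonneg ?_ fun i _ _ => by positivity
      intro l hl
      simp only [hL, primesIn, mem_filter, mem_Ioc] at hl ⊢
      obtain ⟨⟨⟨a1, a2⟩, a3⟩, a4⟩ := hl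
      refine ⟨⟨⟨a1, ?_⟩, a3⟩, ((Nat.modEq_iff_dvd' a3.pos).2 a4).symm⟩
      exact a2.trans ((Nat.sqrt_le_self Y).trans hYA)
    have e6 : 1 / 2 ^ J * (Real.log A + 1) = 1 / 2 ^ J * Real.log A + 1 / 2 ^ J := by ring
    rw [e6]
    linarith
  have hsum2 : ∑ n ∈ N₁, 1 / (n : ℝ) ≤ CR * A := by
    refine le_trans ?_ (hR z A hz3 hA1)
    refine sum_le_sum_of_subset_of_nonneg ?_ fun i _ _ => by positivity
    intro n hn
    simp only [hN₁, mem_filter, mem_Icc] at hn ⊢
    exact ⟨⟨hn.1.1, hn.1.2.trans ((Nat.sqrt_le_self Y).trans hYA)⟩, hn.2⟩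
  have hQr : (0 : ℝ) < (primorial W : ℝ) := by exact_mod_cast hQ0
  have hcard : (((Icc 1 Y).filter (fun n => n ≡ c [MOD primorial W] ∧ Rgh z n ∧
      ∃ l : ℕ, l.Prime ∧ l ∣ n ∧ 2 ^ (J + 1) ∣ l - 1)).card : ℝ) ≤
      ∑ l ∈ L, ((F l).card : ℝ) + ∑ n ∈ N₁, ((G n).card : ℝ) := by
    have h1 := card_le_card hsub
    have h2 := card_union_le (L.biUnion fun l => (F l).image fun n => l * n)
      (N₁.biUnion fun n => (G n).image fun l => l * n)
    have h3 : (L.biUnion fun l => (F l).image fun n => l * n).card ≤ ∑ l ∈ L, (F l).card :=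
      card_biUnion_le.trans (sum_le_sum fun l _ => card_image_le)
    have h4 : (N₁.biUnion fun n => (G n).image fun l => l * n).card ≤ ∑ n ∈ N₁, (G n).card :=
      card_biUnion_le.trans (sum_le_sum fun l _ => card_image_le)
    have h5 := h1.trans (h2.trans (add_le_add h3 h4))
    exact_mod_cast h5
  refine hcard.trans ?_
  have hK : 0 ≤ 2 * ((Y : ℝ) / (primorial W : ℝ)) * VV W z := by positivity
  calc ∑ l ∈ L, ((F l).card : ℝ) + ∑ n ∈ N₁, ((G n).card : ℝ)
      ≤ ∑ l ∈ L, 2 * ((Y : ℝ) / (primorial W : ℝ)) * VV W z * (1 / l) +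
        ∑ n ∈ N₁, 2 * ((Y : ℝ) / (primorial W : ℝ)) * VV W z * (1 / 2 ^ J) * (1 / n) :=
        add_le_add (sum_le_sum hFc) (sum_le_sum hGc)
    _ = 2 * ((Y : ℝ) / (primorial W : ℝ)) * VV W z * ∑ l ∈ L, 1 / (l : ℝ) +
        2 * ((Y : ℝ) / (primorial W : ℝ)) * VV W z * (1 / 2 ^ J) * ∑ n ∈ N₁, 1 / (n : ℝ) := by
        rw [mul_sum, mul_sum]
    _ ≤ 2 * ((Y : ℝ) / (primorial W : ℝ)) * VV W z * (1 / 2 ^ J * (Real.log A + 1)) +
        2 * ((Y : ℝ) / (primorial W : ℝ)) * VV W z * (1 / 2 ^ J) * (CR * A) := by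
        refine add_le_add (mul_le_mul_of_nonneg_left hsum1 hK) (mul_le_mul_of_nonneg_left hsum2 ?_)
        positivity
    _ = (2 * (Real.log A + 1) + 2 * (CR * A)) / 2 ^ J * ((Y : ℝ) / (primorial W : ℝ)) * VV W z := by
        ring

end Pool.Agent.Lib.MP_ba0fa5_ag.H79
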