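import Pool.Agent.Lib.MP_ba0fa5_ag.AA.IfaceA

/-!
MP_ba0fa5_ag, Theorem A, module ZERO: the second moment, pairs with `b = b'`.
-/

set_option autoImplicit false
set_option exponentiation.threshold 2000

namespace Pool.Agent.Lib.MP_ba0fa5_ag.H79

open scoped Classical
open Finset
open Pool.Agent.Lib.MP_ba0fa5_ag.AA

/-! ### Elementary facts -/

theorem ws_nn (n : ℕ) : 0 ≤ ws n := by
  unfold ws
  refine prod_nonneg fun l _ => pow_nonneg ?_ _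
  unfold dl
  split_ifs <;> norm_num

theorem ws_le_one (n : ℕ) : ws n ≤ 1 := by
  unfold ws
  refine prod_le_one (fun l _ => pow_nonneg ?_ _) fun l _ => pow_le_one₀ ?_ ?_
  all_goals (unfold dl; split_ifs <;> norm_num)

theorem VV_nn (W z : ℕ) : 0 ≤ VV W z := by
  unfold VV
  refine prod_nonneg fun l hl => ?_
  have h1 : l.Prime := (mem_filter.1 hl).2
  have h2 : (1 : ℝ) ≤ l := by exact_mod_cast h1.one_lt.le
  rw [sub_nonneg, div_le_one (by positivity)]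
  exact h2

/-- ranges of the coordinates -/
theorem box_mem {W c Z : ℕ} {q : ℕ × ℕ × ℕ × ℕ} (h : q ∈ Box W c Z) :
    (Z < q.1 ∧ q.1 ≤ Z ^ 3) ∧ (Z ^ 10 < q.2.1 ∧ q.2.1 ≤ Z ^ 30) ∧
    (Z ^ 100 < q.2.2.1 ∧ q.2.2.1 ≤ Z ^ 300) ∧ (Z < q.2.2.2 ∧ q.2.2.2 ≤ Z ^ 3) := by
  unfold Box BoxAll cls at h
  simp only [mem_filter, mem_product, mem_Ioc] at h
  obtain ⟨⟨⟨h1, -⟩, ⟨h2, -⟩, ⟨h3, -⟩, ⟨h4, -⟩⟩, -⟩ := h
  rw [← pow_mul] at h2 h3
  exact ⟨h1, h2, h3, h4⟩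

/-- the classes of the coordinates -/
theorem box_cls {W c Z : ℕ} {q : ℕ × ℕ × ℕ × ℕ} (h : q ∈ Box W c Z) :
    q.1 ≡ c [MOD primorial W] ∧ q.2.1 ≡ c [MOD primorial W] ∧
    q.2.2.1 ≡ (primorial W - 1) * c [MOD primorial W] ∧ q.2.2.2 ≡ 1 [MOD primorial W] := by
  unfold Box BoxAll cls at h
  simp only [mem_filter, mem_product, mem_Ioc] at h
  obtain ⟨⟨⟨-, h1⟩, ⟨-, h2⟩, ⟨-, h3⟩, ⟨-, h4⟩⟩, -⟩ := h
  exact ⟨h1, h2, h3, h4⟩

theorem cop_of_modEq {a c Q : ℕ} (h : a ≡ c [MOD Q]) (hc : c.Coprime Q) : a.Coprime Q := by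
  unfold Nat.Coprime at *
  rw [h.gcd_eq]
  exact hc

theorem HH_coprime {W c Z : ℕ} (hc : c.Coprime (primorial W)) {q : ℕ × ℕ × ℕ × ℕ}
    (h : q ∈ Box W c Z) : (HH q).Coprime (primorial W) := by
  obtain ⟨h1, h2, h3, h4⟩ := box_cls h
  have hpos : 0 < primorial W := primorial_pos W
  have h5 : ((primorial W - 1) * c).Coprime (primorial W) := by
    refine Nat.Coprime.mul_left ?_ hc
    rcases Nat.exists_eq_succ_of_ne_zero hpos.ne' with ⟨m, hm⟩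
    rw [hm, Nat.succ_sub_one]
    exact (Nat.coprime_self_add_right (m := m) (n := 1)).2 (Nat.coprime_one_right m)
  unfold HH
  exact Nat.Coprime.mul_left (Nat.Coprime.mul_left (Nat.Coprime.mul_left (cop_of_modEq h1 hc)
    (cop_of_modEq h2 hc)) (cop_of_modEq h3 h5)) (cop_of_modEq h4 (Nat.coprime_one_left _))

theorem HH_pos {W c Z : ℕ} {q : ℕ × ℕ × ℕ × ℕ} (h : q ∈ Box W c Z) : 0 < HH q := by
  obtain ⟨h1, h2, h3, h4⟩ := box_mem h
  unfold HH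
  have := Nat.zero_le Z
  have a1 : 0 < q.1 := by omega
  have a2 : 0 < q.2.1 := lt_of_le_of_lt (Nat.zero_le _) h2.1
  have a3 : 0 < q.2.2.1 := lt_of_le_of_lt (Nat.zero_le _) h3.1
  have a4 : 0 < q.2.2.2 := by omega
  positivity

theorem HH_le {W c Z : ℕ} {q : ℕ × ℕ × ℕ × ℕ} (h : q ∈ Box W c Z) : HH q ≤ Z ^ 336 := by
  obtain ⟨h1, h2, h3, h4⟩ := box_mem h
  unfold HH
  calc q.1 * q.2.1 * q.2.2.1 * q.2.2.2 ≤ Z ^ 3 * Z ^ 30 * Z ^ 300 * Z ^ 3 :=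
        Nat.mul_le_mul (Nat.mul_le_mul (Nat.mul_le_mul h1.2 h2.2) h3.2) h4.2
    _ = Z ^ 336 := by ring

theorem bb_le {W c Z : ℕ} {q : ℕ × ℕ × ℕ × ℕ} (h : q ∈ Box W c Z) (hZ : 1 ≤ Z) :
    bb q ≤ 3 * Z ^ 300 := by
  obtain ⟨h1, h2, h3, -⟩ := box_mem h
  unfold bb
  have e1 : Z ^ 3 ≤ Z ^ 300 := Nat.pow_le_pow_right hZ (by norm_num)
  have e2 : Z ^ 30 ≤ Z ^ 300 := Nat.pow_le_pow_right hZ (by norm_num)
  omega

/-! ### The diagonal -/

theorem diag {B W Z X N₀ c : ℕ} (hW : 3 ≤ W) (hZ : 2 ≤ Z) (hQ : primorial W ≤ Z)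
    (hX : zz Z ^ (B + 3) ≤ X) (hc : c.Coprime (primorial W))
    (hB : ∀ W z q Y c : ℕ, 3 ≤ W → 2 ≤ z → 1 ≤ q → q * z ^ B ≤ Y →
      (∀ l ∈ primesIn W z, ¬ l ∣ q) →
      (((Icc 1 Y).filter (fun n => n ≡ c [MOD q] ∧ Rgh z n)).card : ℝ) ≤
        2 * ((Y : ℝ) / q) * VV W z) {q : ℕ × ℕ × ℕ × ℕ} (hq : q ∈ Box W c Z) :
    (((NN W X N₀).filter (fun N => Rw Z q N)).card : ℝ) ≤
      4 * ((X : ℝ) / (primorial W : ℝ)) * VV W (zz Z) / HH q := by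
  have hzz : 2 ≤ zz Z := by
    unfold zz
    calc 2 ≤ Z := hZ
      _ = Z ^ 1 := (pow_one Z).symm
      _ ≤ Z ^ 301 := Nat.pow_le_pow_right (by omega) (by norm_num)
  have hQpos : 0 < primorial W := primorial_pos W
  have hH : 0 < HH q := HH_pos hq
  have hVV := VV_nn W (zz Z)
  by_cases hne : ((NN W X N₀).filter (fun N => Rw Z q N)).Nonempty
  swap
  · rw [not_nonempty_iff_eq_empty.1 hne, card_empty, Nat.cast_zero]
    positivity
  obtain ⟨N1, hN1⟩ := hne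
  set Y := (X + bb q) / HH q with hY
  have hle : ((NN W X N₀).filter (fun N => Rw Z q N)).card ≤
      ((Icc 1 Y).filter (fun n => n ≡ (N1 + bb q) / HH q [MOD primorial W] ∧ Rgh (zz Z) n)).card := by
    refine card_le_card_of_injOn (fun N => (N + bb q) / HH q) ?_ ?_
    · intro N hN
      have hN' := mem_coe.1 hN
      simp only [NN, mem_filter, mem_Icc, Rw] at hN' hN1
      obtain ⟨⟨⟨h1, h2⟩, h3⟩, h4, h5⟩ := hN'
      obtain ⟨⟨⟨g1, g2⟩, g3⟩, g4, g5⟩ := hN1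
      rw [mem_coe, mem_filter, mem_Icc]
      refine ⟨⟨?_, Nat.div_le_div_right (by omega)⟩, ?_, h5⟩
      · exact Nat.div_pos (Nat.le_of_dvd (by omega) h4) hH
      · refine Nat.ModEq.cancel_right_of_coprime (c := HH q) ?_ ?_
        · exact (HH_coprime hc hq).symm
        · rw [Nat.div_mul_cancel h4, Nat.div_mul_cancel g4]
          exact Nat.ModEq.add_right _ (h3.trans g3.symm)
    · intro N hN N' hN' he
      have a1 := (mem_filter.1 (mem_coe.1 hN)).2.1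
      have a2 := (mem_filter.1 (mem_coe.1 hN')).2.1
      have he' : (N + bb q) / HH q = (N' + bb q) / HH q := he
      have : N + bb q = N' + bb q := by
        rw [← Nat.div_mul_cancel a1, ← Nat.div_mul_cancel a2, he']
      omega
  have hYbig : primorial W * zz Z ^ B ≤ Y := by
    rw [hY, Nat.le_div_iff_mul_le hH]
    have e1 : HH q ≤ zz Z ^ 2 := by
      refine (HH_le hq).trans ?_
      unfold zz
      rw [← pow_mul]
      exact Nat.pow_le_pow_right (by omega) (by norm_num)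
    have e2 : primorial W ≤ zz Z := by
      refine hQ.trans ?_
      unfold zz
      calc Z = Z ^ 1 := (pow_one Z).symm
        _ ≤ Z ^ 301 := Nat.pow_le_pow_right (by omega) (by norm_num)
    calc primorial W * zz Z ^ B * HH q ≤ zz Z * zz Z ^ B * zz Z ^ 2 :=
          Nat.mul_le_mul (Nat.mul_le_mul e2 le_rfl) e1
      _ = zz Z ^ (B + 3) := by ring
      _ ≤ X + bb q := by omega
  have h1 := hB W (zz Z) (primorial W) Y ((N1 + bb q) / HH q) hW hzz hQpos hYbig (by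
    intro l hl hd
    have h2 := mem_filter.1 hl
    have h3 := (h2.2.dvd_primorial_iff).1 hd
    have h4 := (mem_Ioc.1 h2.1).1
    omega)
  refine (Nat.cast_le.2 hle).trans (h1.trans ?_)
  have hbX : bb q ≤ X := by
    refine (bb_le hq (by omega)).trans ?_
    have e3 : 3 * Z ^ 300 ≤ zz Z ^ (B + 3) := by
      unfold zz
      rw [← pow_mul]
      calc 3 * Z ^ 300 ≤ Z ^ 2 * Z ^ 300 := by
            refine Nat.mul_le_mul ?_ le_rfl
            nlinarith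
        _ = Z ^ 302 := by ring
        _ ≤ Z ^ (301 * (B + 3)) := Nat.pow_le_pow_right (by omega) (by omega)
    exact e3.trans hX
  have hYr : (Y : ℝ) ≤ 2 * X / HH q := by
    have e4 : (Y : ℝ) ≤ ((X + bb q : ℕ) : ℝ) / (HH q : ℝ) := Nat.cast_div_le
    refine e4.trans (div_le_div_of_nonneg_right ?_ (by positivity))
    have : ((X + bb q : ℕ) : ℝ) ≤ ((2 * X : ℕ) : ℝ) := by exact_mod_cast (by omega)
    simpa using this
  have hQr : (0 : ℝ) < (primorial W : ℝ) := by exact_mod_cast hQpos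
  have hHr : (0 : ℝ) < (HH q : ℝ) := by exact_mod_cast hH
  calc 2 * ((Y : ℝ) / (primorial W : ℝ)) * VV W (zz Z)
      ≤ 2 * ((2 * X / HH q) / (primorial W : ℝ)) * VV W (zz Z) := by gcongr
    _ = 4 * ((X : ℝ) / (primorial W : ℝ)) * VV W (zz Z) / HH q := by ring

/-! ### Off the diagonal -/

/-- multiples in an interval -/
theorem card_dvd_le (X L b : ℕ) (_hL : 0 < L) (s : Finset ℕ) (hs : ∀ N ∈ s, N ≤ X ∧ L ∣ N + b) :
    (s.card : ℝ) ≤ (X : ℝ) / L + 1 := by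
  have h1 : s.card ≤ X / L + 1 := by
    by_contra hcon
    push Not at hcon
    have hne : s.Nonempty := card_pos.1 (lt_of_le_of_lt (Nat.zero_le _) hcon)
    set m := s.min' hne with hm
    have hmS := s.min'_mem hne
    have h2 : s.card ≤ ((range (X / L + 1))).card := by
      refine card_le_card_of_injOn (fun N => (N - m) / L) ?_ ?_
      · intro N hN
        obtain ⟨a1, a2⟩ := hs N (mem_coe.1 hN)
        rw [mem_coe, mem_range]
        have : (N - m) / L ≤ X / L := Nat.div_le_div_right (by omega)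
        show (N - m) / L < _
        omega
      · intro N hN N' hN' he
        obtain ⟨a1, a2⟩ := hs N (mem_coe.1 hN)
        obtain ⟨a3, a4⟩ := hs N' (mem_coe.1 hN')
        obtain ⟨a5, a6⟩ := hs m hmS
        have b1 : m ≤ N := min'_le _ _ (mem_coe.1 hN)
        have b2 : m ≤ N' := min'_le _ _ (mem_coe.1 hN')
        have c1 : L ∣ N - m := by
          have := (Nat.dvd_sub a2 a6)
          have e : N + b - (m + b) = N - m := by omega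
          rwa [e] at this
        have c2 : L ∣ N' - m := by
          have := (Nat.dvd_sub a4 a6)
          have e : N' + b - (m + b) = N' - m := by omega
          rwa [e] at this
        have he' : (N - m) / L = (N' - m) / L := he
        have : N - m = N' - m := by
          rw [← Nat.div_mul_cancel c1, ← Nat.div_mul_cancel c2, he']
        omega
    rw [card_range] at h2
    omega
  calc (s.card : ℝ) ≤ ((X / L + 1 : ℕ) : ℝ) := by exact_mod_cast h1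
    _ = ((X / L : ℕ) : ℝ) + 1 := by push_cast; ring
    _ ≤ (X : ℝ) / L + 1 := by
        have := @Nat.cast_div_le ℝ _ _ _ X L
        linarith

/-- two different divisors at distance at most `K` -/
theorem card_two_le (X w v v' K b : ℕ) (hw : 0 < w) (hv : 0 < v) (hne : v ≠ v') (hK : 0 < K)
    (h1 : v ≤ v' + K) (h2 : v' ≤ v + K) (h3 : 2 * K ≤ v) (s : Finset ℕ)
    (hs : ∀ N ∈ s, N ≤ X ∧ w * v ∣ N + b ∧ w * v' ∣ N + b) :
    (s.card : ℝ) ≤ 2 * X * K / (w * (v : ℝ) ^ 2) + 1 := by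
  have hv' : v ≤ 2 * v' := by omega
  have hv'0 : 0 < v' := by omega
  have hL : 0 < w * v.lcm v' := Nat.mul_pos hw (Nat.lcm_pos hv hv'0)
  have h4 := card_dvd_le X (w * v.lcm v') b hL s fun N hN => by
    obtain ⟨a1, a2, a3⟩ := hs N hN
    refine ⟨a1, ?_⟩
    rw [← Nat.lcm_mul_left]
    exact Nat.lcm_dvd a2 a3
  refine h4.trans (add_le_add ?_ le_rfl)
  have hg : v.gcd v' ≤ K := by
    rcases lt_or_gt_of_ne hne with h | h
    · refine (Nat.le_of_dvd (by omega) (Nat.dvd_sub (Nat.gcd_dvd_right v v') (Nat.gcd_dvd_left v v'))).trans ?_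
      omega
    · refine (Nat.le_of_dvd (by omega) (Nat.dvd_sub (Nat.gcd_dvd_left v v') (Nat.gcd_dvd_right v v'))).trans ?_
      omega
  have h5 : w * v ^ 2 ≤ 2 * K * (w * v.lcm v') := by
    have e1 : v.gcd v' * v.lcm v' = v * v' := Nat.gcd_mul_lcm v v'
    calc w * v ^ 2 = w * (v * v) := by ring
      _ ≤ w * (v * (2 * v')) := by gcongr
      _ = 2 * w * (v * v') := by ring
      _ = 2 * w * (v.gcd v' * v.lcm v') := by rw [e1]
      _ ≤ 2 * w * (K * v.lcm v') := by gcongr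
      _ = 2 * K * (w * v.lcm v') := by ring
  have h6 : (w : ℝ) * (v : ℝ) ^ 2 ≤ 2 * K * ((w * v.lcm v' : ℕ) : ℝ) := by exact_mod_cast h5
  have hLr : (0 : ℝ) < ((w * v.lcm v' : ℕ) : ℝ) := by exact_mod_cast hL
  have hwv : (0 : ℝ) < (w : ℝ) * (v : ℝ) ^ 2 := by positivity
  rw [div_le_div_iff₀ hLr hwv]
  calc (X : ℝ) * ((w : ℝ) * (v : ℝ) ^ 2) ≤ X * (2 * K * ((w * v.lcm v' : ℕ) : ℝ)) := by gcongr
    _ = 2 * X * K * ((w * v.lcm v' : ℕ) : ℝ) := by ring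

/-- `k` is determined by `x, u, v, N` -/
theorem k_unique {z k k' y y' : ℕ} (hk : 0 < k) (hk' : 0 < k') (hkz : k ≤ z) (hkz' : k' ≤ z)
    (hy : Rgh z y) (hy' : Rgh z y') (h : k * y = k' * y') : k = k' := by
  have cop : ∀ a b : ℕ, 0 < a → a ≤ z → Rgh z b → a.Coprime b := by
    intro a b ha haz hb
    rw [Nat.coprime_iff_gcd_eq_one]
    by_contra hcon
    obtain ⟨l, hl, hd⟩ := Nat.exists_prime_and_dvd hcon
    have h1 := hb l hl (hd.trans (Nat.gcd_dvd_right a b))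
    have h2 := Nat.le_of_dvd ha (hd.trans (Nat.gcd_dvd_left a b))
    omega
  refine Nat.dvd_antisymm ?_ ?_
  · exact (cop k y' hk hkz hy').dvd_of_dvd_mul_right (by rw [← h]; exact dvd_mul_right _ _)
  · exact (cop k' y hk' hkz' hy).dvd_of_dvd_mul_right (by rw [h]; exact dvd_mul_right _ _)

/-- the set of the triples `(q, q', N)` off the diagonal -/
noncomputable def TT (W c Z X : ℕ) : Finset (((ℕ × ℕ × ℕ × ℕ) × (ℕ × ℕ × ℕ × ℕ)) × ℕ) :=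
  ((Box W c Z ×ˢ Box W c Z) ×ˢ Icc 1 X).filter (fun t => t.1.1 ≠ t.1.2 ∧ bb t.1.1 = bb t.1.2 ∧
    Rw Z t.1.1 t.2 ∧ Rw Z t.1.2 t.2)

/-- data of the triples: `x, u, x', u', v, N` -/
noncomputable def NA (X x u x' u' v : ℕ) : Finset ℕ :=
  (Icc 1 X).filter (fun N => v ≠ x + u + v - x' - u' ∧ v ∣ N + (x + u + v) ∧
    x + u + v - x' - u' ∣ N + (x + u + v) ∧ x' + u' ≤ x + u + v)

theorem card_NA_le {Z X x u x' u' v : ℕ} (hZ : 2 ≤ Z) (hx : x ≤ Z ^ 3) (hu : u ≤ Z ^ 30)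
    (hx' : x' ≤ Z ^ 3) (hu' : u' ≤ Z ^ 30) (hv : Z ^ 100 < v) :
    ((NA X x u x' u' v).card : ℝ) ≤ 2 * X * (2 * Z ^ 30) / (v : ℝ) ^ 2 + 1 := by
  have e3 : Z ^ 3 ≤ Z ^ 30 := Nat.pow_le_pow_right (by omega) (by norm_num)
  have e4 : 4 * Z ^ 30 ≤ Z ^ 100 := by
    calc 4 * Z ^ 30 ≤ Z ^ 2 * Z ^ 30 := by
          refine Nat.mul_le_mul ?_ le_rfl
          nlinarith
      _ = Z ^ 32 := by ring
      _ ≤ Z ^ 100 := Nat.pow_le_pow_right (by omega) (by norm_num)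
  have hpos : 0 < Z ^ 30 := by positivity
  by_cases hne : (NA X x u x' u' v).Nonempty
  swap
  · rw [not_nonempty_iff_eq_empty.1 hne, card_empty, Nat.cast_zero]
    positivity
  obtain ⟨N0, hN0⟩ := hne
  unfold NA at hN0
  rw [mem_filter] at hN0
  obtain ⟨-, hn, -, -, hle⟩ := hN0
  have h := card_two_le X 1 v (x + u + v - x' - u') (2 * Z ^ 30) (x + u + v) one_pos
    (by omega) hn (by positivity) (by omega) (by omega) (by omega) (NA X x u x' u' v) (by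
      intro N hN
      unfold NA at hN
      rw [mem_filter, mem_Icc] at hN
      rw [one_mul, one_mul]
      exact ⟨hN.1.2, hN.2.2.1, hN.2.2.2.1⟩)
  push_cast at h
  rw [one_mul] at h
  exact h

/-- data of the triples with `v = v'`: `x, u, x', v, N` -/
noncomputable def NB (X x u x' v : ℕ) : Finset ℕ :=
  (Icc 1 X).filter (fun N => u ≠ x + u - x' ∧ v * u ∣ N + (x + u + v) ∧
    v * (x + u - x') ∣ N + (x + u + v) ∧ x' ≤ x + u)

theorem card_NB_le {Z X x u x' v : ℕ} (hZ : 2 ≤ Z) (hx : x ≤ Z ^ 3) (hx' : x' ≤ Z ^ 3)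
    (hu : Z ^ 10 < u) (hv : 0 < v) :
    ((NB X x u x' v).card : ℝ) ≤ 2 * X * Z ^ 3 / (v * (u : ℝ) ^ 2) + 1 := by
  have e4 : 2 * Z ^ 3 ≤ Z ^ 10 := by
    calc 2 * Z ^ 3 ≤ Z * Z ^ 3 := Nat.mul_le_mul hZ le_rfl
      _ = Z ^ 4 := by ring
      _ ≤ Z ^ 10 := Nat.pow_le_pow_right (by omega) (by norm_num)
  have hpos : 0 < Z ^ 3 := by positivity
  by_cases hne : (NB X x u x' v).Nonempty
  swap
  · rw [not_nonempty_iff_eq_empty.1 hne, card_empty, Nat.cast_zero]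
    positivity
  obtain ⟨N0, hN0⟩ := hne
  unfold NB at hN0
  rw [mem_filter] at hN0
  obtain ⟨-, hn, -, -, hle⟩ := hN0
  have h := card_two_le X v u (x + u - x') (Z ^ 3) (x + u + v) hv
    (by omega) hn hpos (by omega) (by omega) (by omega) (NB X x u x' v) (by
      intro N hN
      unfold NB at hN
      rw [mem_filter, mem_Icc] at hN
      exact ⟨hN.1.2, hN.2.2.1, hN.2.2.2.1⟩)
  push_cast at h
  exact h


theorem q_unique {W c Z N : ℕ} (hZ : 2 ≤ Z) {q q' : ℕ × ℕ × ℕ × ℕ} (hq : q ∈ Box W c Z) (hq' : q' ∈ Box W c Z)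
    (h : Rw Z q N) (h' : Rw Z q' N) (hx : q.1 = q'.1) (hu : q.2.1 = q'.2.1) (hv : q.2.2.1 = q'.2.2.1) :
    q = q' := by
  obtain ⟨⟨x1, -⟩, ⟨u1, -⟩, ⟨v1, -⟩, ⟨k1, k2⟩⟩ := box_mem hq
  obtain ⟨-, -, -, ⟨k1', k2'⟩⟩ := box_mem hq'
  have hb : bb q = bb q' := by unfold bb; rw [hx, hu, hv]
  obtain ⟨h1, h2⟩ := h
  obtain ⟨h1', h2'⟩ := h'
  have hz3 : Z ^ 3 ≤ zz Z := by
    unfold zz
    exact Nat.pow_le_pow_right (by omega) (by norm_num)
  have e : HH q * ((N + bb q) / HH q) = HH q' * ((N + bb q') / HH q') := by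
    rw [Nat.mul_div_cancel' h1, Nat.mul_div_cancel' h1', hb]
  have hpos : 0 < q.1 * q.2.1 * q.2.2.1 := by
    have a1 : 0 < q.1 := by omega
    have a2 : 0 < q.2.1 := lt_of_le_of_lt (Nat.zero_le _) u1
    have a3 : 0 < q.2.2.1 := lt_of_le_of_lt (Nat.zero_le _) v1
    positivity
  have e2 : q.2.2.2 * ((N + bb q) / HH q) = q'.2.2.2 * ((N + bb q') / HH q') := by
    refine Nat.eq_of_mul_eq_mul_left hpos ?_
    calc q.1 * q.2.1 * q.2.2.1 * (q.2.2.2 * ((N + bb q) / HH q))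
        = HH q * ((N + bb q) / HH q) := by unfold HH; ring
      _ = HH q' * ((N + bb q') / HH q') := e
      _ = q.1 * q.2.1 * q.2.2.1 * (q'.2.2.2 * ((N + bb q') / HH q')) := by
          rw [hx, hu, hv]; unfold HH; ring
  have hk := k_unique (by omega) (by omega) (k2.trans hz3) (k2'.trans hz3) h2 h2' e2
  exact Prod.ext hx (Prod.ext hu (Prod.ext hv hk))

/-- index set for `v ≠ v'` -/
def A5 (Z : ℕ) : Finset (ℕ × ℕ × ℕ × ℕ × ℕ) :=
  Icc 1 (Z ^ 3) ×ˢ Icc 1 (Z ^ 30) ×ˢ Icc 1 (Z ^ 3) ×ˢ Icc 1 (Z ^ 30) ×ˢ Ioc (Z ^ 100) (Z ^ 300)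

/-- index set for `v = v'` -/
def B4 (Z : ℕ) : Finset (ℕ × ℕ × ℕ × ℕ) :=
  Icc 1 (Z ^ 3) ×ˢ Icc 1 (Z ^ 3) ×ˢ Ioc (Z ^ 10) (Z ^ 30) ×ˢ Ioc (Z ^ 100) (Z ^ 300)

theorem card_TTA (W c Z X : ℕ) (hZ : 2 ≤ Z) :
    ((TT W c Z X).filter (fun t => t.1.1.2.2.1 ≠ t.1.2.2.2.1)).card ≤
      ∑ a ∈ A5 Z, (NA X a.1 a.2.1 a.2.2.1 a.2.2.2.1 a.2.2.2.2).card := by
  rw [← card_sigma]
  refine card_le_card_of_injOn (fun t => (⟨(t.1.1.1, t.1.1.2.1, t.1.2.1, t.1.2.2.1, t.1.1.2.2.1), t.2⟩ :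
    (_ : ℕ × ℕ × ℕ × ℕ × ℕ) × ℕ)) ?_ ?_
  · intro t ht
    have ht' := mem_coe.1 ht
    obtain ⟨⟨q, q'⟩, N⟩ := t
    simp only [TT, mem_filter, mem_product] at ht'
    obtain ⟨⟨⟨⟨hq, hq'⟩, hN⟩, hne, hb, hR, hR'⟩, hv⟩ := ht'
    obtain ⟨⟨x1, x2⟩, ⟨u1, u2⟩, ⟨v1, v2⟩, -⟩ := box_mem hq
    obtain ⟨⟨x1', x2'⟩, ⟨u1', u2'⟩, ⟨v1', v2'⟩, -⟩ := box_mem hq'
    have d1 : q.2.2.1 ∣ N + bb q := by
      refine dvd_trans ?_ hR.1
      unfold HH
      exact ⟨q.1 * q.2.1 * q.2.2.2, by ring⟩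
    have d2 : q'.2.2.1 ∣ N + bb q' := by
      refine dvd_trans ?_ hR'.1
      unfold HH
      exact ⟨q'.1 * q'.2.1 * q'.2.2.2, by ring⟩
    have hb' : q.1 + q.2.1 + q.2.2.1 = q'.1 + q'.2.1 + q'.2.2.1 := hb
    have hv' : q.1 + q.2.1 + q.2.2.1 - q'.1 - q'.2.1 = q'.2.2.1 := by omega
    rw [mem_coe, mem_sigma]
    refine ⟨?_, ?_⟩
    · simp only [A5, mem_product, mem_Icc, mem_Ioc]
      have p1 : 0 < q.2.1 := lt_of_le_of_lt (Nat.zero_le _) u1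
      have p2 : 0 < q'.2.1 := lt_of_le_of_lt (Nat.zero_le _) u1'
      exact ⟨⟨by omega, x2⟩, ⟨p1, u2⟩, ⟨by omega, x2'⟩, ⟨p2, u2'⟩, ⟨v1, v2⟩⟩
    · simp only [NA, mem_filter]
      refine ⟨hN, ?_, ?_, ?_, ?_⟩
      · rw [hv']
        exact hv
      · exact d1
      · rw [hv']
        have : N + (q.1 + q.2.1 + q.2.2.1) = N + bb q' := by rw [hb']; rfl
        rw [this]
        exact d2
      · omega
  · intro t ht t2 ht2 he
    have ht' := mem_coe.1 ht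
    have ht2' := mem_coe.1 ht2
    obtain ⟨⟨q, q'⟩, N⟩ := t
    obtain ⟨⟨r, r'⟩, N2⟩ := t2
    simp only [TT, mem_filter, mem_product] at ht' ht2'
    obtain ⟨⟨⟨⟨hq, hq'⟩, hN⟩, hne, hb, hR, hR'⟩, hv⟩ := ht'
    obtain ⟨⟨⟨⟨hr, hr'⟩, hN2⟩, hne2, hb2, hS, hS'⟩, hv2⟩ := ht2'
    simp only [Sigma.mk.injEq, Prod.mk.injEq, heq_eq_eq] at he
    obtain ⟨⟨e1, e2, e3, e4, e5⟩, e6⟩ := he
    subst e6
    have hb' : q.1 + q.2.1 + q.2.2.1 = q'.1 + q'.2.1 + q'.2.2.1 := hb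
    have hb2' : r.1 + r.2.1 + r.2.2.1 = r'.1 + r'.2.1 + r'.2.2.1 := hb2
    have f1 := q_unique hZ hq hr hR hS e1 e2 e5
    have f2 := q_unique hZ hq' hr' hR' hS' e3 e4 (by omega)
    rw [f1, f2]

theorem card_TTB (W c Z X : ℕ) (hZ : 2 ≤ Z) :
    ((TT W c Z X).filter (fun t => ¬ t.1.1.2.2.1 ≠ t.1.2.2.2.1)).card ≤
      ∑ a ∈ B4 Z, (NB X a.1 a.2.2.1 a.2.1 a.2.2.2).card := by
  rw [← card_sigma]
  refine card_le_card_of_injOn (fun t => (⟨(t.1.1.1, t.1.2.1, t.1.1.2.1, t.1.1.2.2.1), t.2⟩ :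
    (_ : ℕ × ℕ × ℕ × ℕ) × ℕ)) ?_ ?_
  · intro t ht
    have ht' := mem_coe.1 ht
    obtain ⟨⟨q, q'⟩, N⟩ := t
    simp only [TT, mem_filter, mem_product, not_not] at ht'
    obtain ⟨⟨⟨⟨hq, hq'⟩, hN⟩, hne, hb, hR, hR'⟩, hv⟩ := ht'
    obtain ⟨⟨x1, x2⟩, ⟨u1, u2⟩, ⟨v1, v2⟩, -⟩ := box_mem hq
    obtain ⟨⟨x1', x2'⟩, ⟨u1', u2'⟩, ⟨v1', v2'⟩, -⟩ := box_mem hq'
    have d1 : q.2.2.1 * q.2.1 ∣ N + bb q := by
      refine dvd_trans ?_ hR.1
      unfold HH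
      exact ⟨q.1 * q.2.2.2, by ring⟩
    have d2 : q'.2.2.1 * q'.2.1 ∣ N + bb q' := by
      refine dvd_trans ?_ hR'.1
      unfold HH
      exact ⟨q'.1 * q'.2.2.2, by ring⟩
    have hb' : q.1 + q.2.1 + q.2.2.1 = q'.1 + q'.2.1 + q'.2.2.1 := hb
    have hu' : q.1 + q.2.1 - q'.1 = q'.2.1 := by omega
    rw [mem_coe, mem_sigma]
    refine ⟨?_, ?_⟩
    · simp only [B4, mem_product, mem_Icc, mem_Ioc]
      exact ⟨⟨by omega, x2⟩, ⟨by omega, x2'⟩, ⟨u1, u2⟩, ⟨v1, v2⟩⟩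
    · simp only [NB, mem_filter]
      refine ⟨hN, ?_, ?_, ?_, ?_⟩
      · rw [hu']
        intro hu
        exact hne (q_unique hZ hq hq' hR hR' (by omega) hu hv)
      · exact d1
      · rw [hu']
        have : N + (q.1 + q.2.1 + q.2.2.1) = N + bb q' := by rw [hb']; rfl
        rw [this, hv]
        exact d2
      · omega
  · intro t ht t2 ht2 he
    have ht' := mem_coe.1 ht
    have ht2' := mem_coe.1 ht2
    obtain ⟨⟨q, q'⟩, N⟩ := t
    obtain ⟨⟨r, r'⟩, N2⟩ := t2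
    simp only [TT, mem_filter, mem_product, not_not] at ht' ht2'
    obtain ⟨⟨⟨⟨hq, hq'⟩, hN⟩, hne, hb, hR, hR'⟩, hv⟩ := ht'
    obtain ⟨⟨⟨⟨hr, hr'⟩, hN2⟩, hne2, hb2, hS, hS'⟩, hv2⟩ := ht2'
    simp only [Sigma.mk.injEq, Prod.mk.injEq, heq_eq_eq] at he
    obtain ⟨⟨e1, e2, e3, e4⟩, e6⟩ := he
    subst e6
    have hb' : q.1 + q.2.1 + q.2.2.1 = q'.1 + q'.2.1 + q'.2.2.1 := hb
    have hb2' : r.1 + r.2.1 + r.2.2.1 = r'.1 + r'.2.1 + r'.2.2.1 := hb2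
    have f1 := q_unique hZ hq hr hR hS e1 e3 e4
    have f2 := q_unique hZ hq' hr' hR' hS' e2 (by omega) (by omega)
    rw [f1, f2]

theorem sum_inv_sq (a b : ℕ) (ha : 0 < a) : ∑ v ∈ Ioc a b, 1 / (v : ℝ) ^ 2 ≤ 1 / (a : ℝ) := by
  by_cases h : a ≤ b
  · have h1 := sum_Ioc_inv_sq_le_sub (α := ℝ) (k := a) (n := b) ha.ne' h
    have h2 : (0 : ℝ) ≤ (b : ℝ)⁻¹ := by positivity
    simp only [one_div]
    linarith
  · rw [Ioc_eq_empty_of_le (by omega), sum_empty]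
    positivity

theorem sum_inv_log (a b : ℕ) : ∑ v ∈ Ioc a b, 1 / (v : ℝ) ≤ 1 + Real.log b := by
  have h := harmonic_le_one_add_log b
  rw [harmonic_eq_sum_Icc] at h
  push_cast at h
  refine le_trans ?_ h
  simp only [one_div]
  refine sum_le_sum_of_subset_of_nonneg ?_ fun i _ _ => by positivity
  intro i hi
  rw [mem_Ioc] at hi
  rw [mem_Icc]
  omega

theorem sumA {Z : ℕ} (X : ℕ) (hZ : 2 ≤ Z) :
    ((∑ a ∈ A5 Z, (NA X a.1 a.2.1 a.2.2.1 a.2.2.2.1 a.2.2.2.2).card : ℕ) : ℝ) ≤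
      4 * X / (Z : ℝ) ^ 4 + (Z : ℝ) ^ 366 := by
  have hZr : (0 : ℝ) < Z := by exact_mod_cast (by omega : 0 < Z)
  push_cast
  have h1 : ∀ a ∈ A5 Z, ((NA X a.1 a.2.1 a.2.2.1 a.2.2.2.1 a.2.2.2.2).card : ℝ) ≤
      4 * X * Z ^ 30 * (1 / (a.2.2.2.2 : ℝ) ^ 2) + 1 := by
    intro a ha
    simp only [A5, mem_product, mem_Icc, mem_Ioc] at ha
    obtain ⟨⟨-, a1⟩, ⟨-, a2⟩, ⟨-, a3⟩, ⟨-, a4⟩, ⟨a5, -⟩⟩ := ha
    refine (card_NA_le hZ a1 a2 a3 a4 a5).trans (le_of_eq ?_)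
    ring
  refine (sum_le_sum h1).trans ?_
  unfold A5
  simp only [sum_product, sum_const, Nat.card_Icc, Nat.add_sub_cancel, nsmul_eq_mul]
  rw [sum_add_distrib, ← mul_sum, sum_const, Nat.card_Ioc, nsmul_eq_mul, mul_one]
  have h2 := sum_inv_sq (Z ^ 100) (Z ^ 300) (by positivity)
  have h3 : ((Z ^ 300 - Z ^ 100 : ℕ) : ℝ) ≤ (Z : ℝ) ^ 300 := by
    exact_mod_cast Nat.sub_le _ _
  push_cast at h2 ⊢
  calc (Z : ℝ) ^ 3 * (Z ^ 30 * (Z ^ 3 * (Z ^ 30 * (4 * X * Z ^ 30 *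
        ∑ i ∈ Ioc (Z ^ 100) (Z ^ 300), 1 / (i : ℝ) ^ 2 + ((Z ^ 300 - Z ^ 100 : ℕ) : ℝ)))))
      ≤ (Z : ℝ) ^ 3 * (Z ^ 30 * (Z ^ 3 * (Z ^ 30 * (4 * X * Z ^ 30 *
        (1 / (Z : ℝ) ^ 100) + (Z : ℝ) ^ 300)))) := by gcongr
    _ = 4 * X / (Z : ℝ) ^ 4 + (Z : ℝ) ^ 366 := by
        field_simp

theorem sumB {Z : ℕ} (X : ℕ) (hZ : 2 ≤ Z) :
    ((∑ a ∈ B4 Z, (NB X a.1 a.2.2.1 a.2.1 a.2.2.2).card : ℕ) : ℝ) ≤
      2 * X / (Z : ℝ) * (1 + 300 * Real.log Z) + (Z : ℝ) ^ 336 := by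
  have hZr : (0 : ℝ) < Z := by exact_mod_cast (by omega : 0 < Z)
  push_cast
  have h1 : ∀ a ∈ B4 Z, ((NB X a.1 a.2.2.1 a.2.1 a.2.2.2).card : ℝ) ≤
      2 * X * Z ^ 3 * ((1 / (a.2.2.1 : ℝ) ^ 2) * (1 / (a.2.2.2 : ℝ))) + 1 := by
    intro a ha
    simp only [B4, mem_product, mem_Icc, mem_Ioc] at ha
    obtain ⟨⟨-, a1⟩, ⟨-, a2⟩, ⟨a3, -⟩, ⟨a4, -⟩⟩ := ha
    have hv : 0 < a.2.2.2 := lt_of_le_of_lt (Nat.zero_le _) a4
    refine (card_NB_le hZ a1 a2 a3 hv).trans (le_of_eq ?_)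
    have hu0 : (0 : ℝ) < a.2.2.1 := by exact_mod_cast lt_of_le_of_lt (Nat.zero_le _) a3
    have hv0 : (0 : ℝ) < a.2.2.2 := by exact_mod_cast hv
    field_simp
  refine (sum_le_sum h1).trans ?_
  unfold B4
  rw [sum_add_distrib, ← mul_sum, sum_const, card_product, card_product, card_product, Nat.card_Icc,
    Nat.card_Ioc, Nat.card_Ioc]
  simp only [sum_product, sum_const, Nat.card_Icc, Nat.add_sub_cancel, nsmul_eq_mul,
    ← mul_sum, mul_one]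
  have e1 : ∑ i ∈ Ioc (Z ^ 10) (Z ^ 30), 1 / (i : ℝ) ^ 2 * ∑ j ∈ Ioc (Z ^ 100) (Z ^ 300), 1 / (j : ℝ)
      ≤ (1 / (Z : ℝ) ^ 10) * (1 + 300 * Real.log Z) := by
    rw [← sum_mul]
    have h2 := sum_inv_sq (Z ^ 10) (Z ^ 30) (by positivity)
    have h3 := sum_inv_log (Z ^ 100) (Z ^ 300)
    push_cast at h2 h3
    rw [Real.log_pow] at h3
    push_cast at h3
    refine mul_le_mul h2 h3 (sum_nonneg fun i _ => by positivity) (by positivity)
  have e2 : ((Z ^ 300 - Z ^ 100 : ℕ) : ℝ) ≤ (Z : ℝ) ^ 300 := by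
    exact_mod_cast Nat.sub_le _ _
  have e3 : ((Z ^ 30 - Z ^ 10 : ℕ) : ℝ) ≤ (Z : ℝ) ^ 30 := by
    exact_mod_cast Nat.sub_le _ _
  rw [Nat.cast_mul, Nat.cast_mul, Nat.cast_mul]
  rw [Nat.cast_pow]
  calc 2 * X * (Z : ℝ) ^ 3 * ((Z : ℝ) ^ 3 * ((Z : ℝ) ^ 3 *
        (∑ i ∈ Ioc (Z ^ 10) (Z ^ 30), 1 / (i : ℝ) ^ 2 *
        ∑ j ∈ Ioc (Z ^ 100) (Z ^ 300), 1 / (j : ℝ)))) +
        (Z : ℝ) ^ 3 * ((Z : ℝ) ^ 3 * (((Z ^ 30 - Z ^ 10 : ℕ) : ℝ) * ((Z ^ 300 - Z ^ 100 : ℕ) : ℝ)))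
      ≤ 2 * X * (Z : ℝ) ^ 3 * ((Z : ℝ) ^ 3 * ((Z : ℝ) ^ 3 *
        ((1 / (Z : ℝ) ^ 10) * (1 + 300 * Real.log Z)))) +
        (Z : ℝ) ^ 3 * ((Z : ℝ) ^ 3 * ((Z : ℝ) ^ 30 * (Z : ℝ) ^ 300)) := by gcongr
    _ = 2 * X / (Z : ℝ) * (1 + 300 * Real.log Z) + (Z : ℝ) ^ 336 := by
        field_simp

theorem card_TT {W c Z X : ℕ} (hZ : 16 ≤ Z) (hX : zz Z ^ 3 ≤ X)
    (hlog : 1 + 300 * Real.log Z ≤ Real.sqrt Z / 8) :
    ((TT W c Z X).card : ℝ) ≤ X / Real.sqrt Z := by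
  have hZ2 : 2 ≤ Z := by omega
  have hZr : (16 : ℝ) ≤ Z := by exact_mod_cast hZ
  have hZ0 : (0 : ℝ) < Z := by linarith
  set r := Real.sqrt Z with hr
  have hr2 : r ^ 2 = Z := Real.sq_sqrt hZ0.le
  have hr4 : 4 ≤ r := by
    rw [hr]
    refine Real.le_sqrt_of_sq_le ?_
    norm_num
    exact hZ
  have hr0 : 0 < r := by linarith
  have h1 : ((TT W c Z X).card : ℝ) ≤ (4 * X / (Z : ℝ) ^ 4 + (Z : ℝ) ^ 366) +
      (2 * X / (Z : ℝ) * (1 + 300 * Real.log Z) + (Z : ℝ) ^ 336) := by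
    have e := card_filter_add_card_filter_not (s := TT W c Z X) (fun t => t.1.1.2.2.1 ≠ t.1.2.2.2.1)
    rw [← e]
    push_cast
    refine add_le_add ?_ ?_
    · exact (Nat.cast_le.2 (card_TTA W c Z X hZ2)).trans (sumA X hZ2)
    · exact (Nat.cast_le.2 (card_TTB W c Z X hZ2)).trans (sumB X hZ2)
  have hXr : (Z : ℝ) ^ 903 ≤ X := by
    have : Z ^ 903 ≤ X := by
      refine le_trans (le_of_eq ?_) hX
      unfold zz
      rw [← pow_mul]
    exact_mod_cast this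
  have hX0 : (0 : ℝ) ≤ X := Nat.cast_nonneg _
  have hZ1 : (1 : ℝ) ≤ Z := by linarith
  have hrZ : r ≤ Z := by rw [← hr2]; nlinarith
  have t1 : 4 * X / (Z : ℝ) ^ 4 ≤ X / r / 4 := by
    rw [div_div, div_le_div_iff₀ (by positivity) (by positivity)]
    have : 16 * r ≤ (Z : ℝ) ^ 4 := by
      calc 16 * r ≤ Z * Z := mul_le_mul hZr hrZ hr0.le hZ0.le
        _ = (Z : ℝ) ^ 2 := by ring
        _ ≤ (Z : ℝ) ^ 4 := pow_le_pow_right₀ hZ1 (by norm_num)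
    nlinarith
  have t2 : (Z : ℝ) ^ 366 + (Z : ℝ) ^ 336 ≤ X / r / 4 := by
    rw [div_div, le_div_iff₀ (by positivity)]
    have e1 : (Z : ℝ) ^ 336 ≤ (Z : ℝ) ^ 366 := pow_le_pow_right₀ hZ1 (by norm_num)
    calc ((Z : ℝ) ^ 366 + (Z : ℝ) ^ 336) * (r * 4) ≤ (2 * (Z : ℝ) ^ 366) * (Z * 4) := by
          refine mul_le_mul (by linarith) (by linarith) (by positivity) (by positivity)
      _ = 8 * (Z : ℝ) ^ 367 := by ring
      _ ≤ Z * (Z : ℝ) ^ 367 := by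
          refine mul_le_mul_of_nonneg_right (by linarith) (by positivity)
      _ = (Z : ℝ) ^ 368 := by ring
      _ ≤ (Z : ℝ) ^ 903 := pow_le_pow_right₀ hZ1 (by norm_num)
      _ ≤ X := hXr
  have t3 : 2 * X / (Z : ℝ) * (1 + 300 * Real.log Z) ≤ X / r / 4 := by
    calc 2 * X / (Z : ℝ) * (1 + 300 * Real.log Z) ≤ 2 * X / (Z : ℝ) * (r / 8) := by gcongr
      _ = X / r / 4 := by
          rw [← hr2]
          field_simp
          ring
  have t4 : (0 : ℝ) ≤ X / r := by positivity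
  linarith

theorem zero (hA : ApuStmt) : ZeroStmt := by
  obtain ⟨B, hB⟩ := hA
  refine ⟨B + 3, fun W hW => ?_⟩
  have hev : ∀ᶠ Z : ℕ in Filter.atTop, 1 + 300 * Real.log Z ≤ Real.sqrt Z / 8 := by
    have h1 : Filter.Tendsto (fun x : ℝ => Real.log x / x ^ (1 / 2 : ℝ)) Filter.atTop (nhds 0) :=
      (isLittleO_log_rpow_atTop (by norm_num)).tendsto_div_nhds_zero
    have h2 := (h1.comp tendsto_natCast_atTop_atTop).eventually (gt_mem_nhds (show (0 : ℝ) < 1 / 4800 by norm_num))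
    filter_upwards [h2, Filter.eventually_ge_atTop (10000 : ℕ)] with Z hZ hZ'
    simp only [Function.comp] at hZ
    have hZr : (10000 : ℝ) ≤ Z := by exact_mod_cast hZ'
    rw [← Real.sqrt_eq_rpow] at hZ
    have hs : 100 ≤ Real.sqrt Z := by
      refine Real.le_sqrt_of_sq_le ?_
      norm_num
      exact hZ'
    rw [div_lt_iff₀ (by linarith)] at hZ
    linarith
  obtain ⟨Z₁, hZ₁⟩ := Filter.eventually_atTop.1 hev
  refine ⟨max (max Z₁ 16) (primorial W), fun Z X N₀ c hZ hX hc => ?_⟩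
  have hZ1 : Z₁ ≤ Z := (le_max_left _ _).trans ((le_max_left _ _).trans hZ)
  have hZ16 : 16 ≤ Z := (le_max_right _ _).trans ((le_max_left _ _).trans hZ)
  have hZQ : primorial W ≤ Z := (le_max_right _ _).trans hZ
  have hzz1 : 1 ≤ zz Z := by
    unfold zz
    exact Nat.one_le_pow _ _ (by omega)
  set S := (Box W c Z ×ˢ Box W c Z).filter (fun p => bb p.1 = bb p.2) with hS
  rw [← sum_filter_add_sum_filter_not S (fun p => p.1 = p.2)]
  have hVV := VV_nn W (zz Z)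
  have hQpos : (0 : ℝ) < (primorial W : ℝ) := by exact_mod_cast primorial_pos W
  refine add_le_add ?_ ?_
  · -- the diagonal
    have h1 : ∑ p ∈ S.filter (fun p => p.1 = p.2), ws (HH p.1) *
        (((NN W X N₀).filter (fun N => Rw Z p.1 N ∧ Rw Z p.2 N)).card : ℝ) =
        ∑ q ∈ Box W c Z, ws (HH q) * (((NN W X N₀).filter (fun N => Rw Z q N)).card : ℝ) := by
      refine sum_nbij' (fun p => p.1) (fun q => (q, q)) ?_ ?_ ?_ ?_ ?_
      · intro p hp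
        simp only [hS, mem_filter, mem_product] at hp
        exact hp.1.1.1
      · intro q hq
        simp only [hS, mem_filter, mem_product]
        exact ⟨⟨⟨hq, hq⟩, trivial⟩, trivial⟩
      · intro p hp
        simp only [mem_filter] at hp
        exact Prod.ext rfl hp.2
      · intro q _
        rfl
      · intro p hp
        simp only [mem_filter] at hp
        rw [← hp.2]
        simp only [and_self]
    rw [h1]
    have h2 : ∀ q ∈ Box W c Z, ws (HH q) * (((NN W X N₀).filter (fun N => Rw Z q N)).card : ℝ) ≤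
        4 * ((X : ℝ) / (primorial W : ℝ)) * VV W (zz Z) * (ws (HH q) / HH q) := by
      intro q hq
      refine (mul_le_mul_of_nonneg_left (diag (B := B) (N₀ := N₀) hW (by omega) hZQ hX hc hB hq)
        (ws_nn _)).trans (le_of_eq ?_)
      ring
    refine (sum_le_sum h2).trans ?_
    rw [← mul_sum]
    have h3 : ∑ q ∈ Box W c Z, ws (HH q) / (HH q : ℝ) ≤ mass W c Z := by
      unfold mass
      refine sum_le_sum_of_subset_of_nonneg (filter_subset _ _) fun q _ _ => ?_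
      exact div_nonneg (ws_nn _) (Nat.cast_nonneg _)
    calc 4 * ((X : ℝ) / (primorial W : ℝ)) * VV W (zz Z) * ∑ q ∈ Box W c Z, ws (HH q) / (HH q : ℝ)
        ≤ 4 * ((X : ℝ) / (primorial W : ℝ)) * VV W (zz Z) * mass W c Z := by gcongr
      _ = 4 * ((X : ℝ) / (primorial W : ℝ)) * (VV W (zz Z) * mass W c Z) := by ring
  · -- off the diagonal
    refine le_trans ?_ (card_TT (W := W) (c := c) (X := X) hZ16
      ((Nat.pow_le_pow_right hzz1 (by omega)).trans hX) (hZ₁ Z hZ1))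
    have h1 : ∀ p ∈ S.filter (fun p => ¬ p.1 = p.2), ws (HH p.1) *
        (((NN W X N₀).filter (fun N => Rw Z p.1 N ∧ Rw Z p.2 N)).card : ℝ) ≤
        (((NN W X N₀).filter (fun N => Rw Z p.1 N ∧ Rw Z p.2 N)).card : ℝ) := fun p _ =>
      mul_le_of_le_one_left (Nat.cast_nonneg _) (ws_le_one _)
    refine (sum_le_sum h1).trans ?_
    rw [← Nat.cast_sum, ← card_sigma, Nat.cast_le]
    refine card_le_card_of_injOn (fun t => (t.1, t.2)) ?_ ?_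
    · intro t ht
      have ht' := mem_coe.1 ht
      obtain ⟨p, N⟩ := t
      simp only [mem_sigma, mem_filter, hS, mem_product, NN] at ht'
      obtain ⟨⟨⟨hq, hb⟩, hne⟩, ⟨hN, -⟩, hR⟩ := ht'
      rw [mem_coe]
      simp only [TT, mem_filter, mem_product]
      exact ⟨⟨hq, hN⟩, hne, hb, hR⟩
    · intro t _ t' _ he
      obtain ⟨p, N⟩ := t
      obtain ⟨p', N'⟩ := t'
      simp only [Prod.mk.injEq] at he
      obtain ⟨rfl, rfl⟩ := he
      rfl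

end Pool.Agent.Lib.MP_ba0fa5_ag.H79
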